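import Pool.Agent.R713.Sl2
import Pool.Agent.R713.Explicit

/-!
# MP_d63bef_al: a Leonard pair with `β = 2` not coming from the equitable basis of `sl₂`

Over `ℚ`, with `d = 3`.
-/

set_option autoImplicit false

namespace Pool.Agent.Results.MP_d63bef_al.NoSl2Module

open Pool.Agent.R713 Module Matrix

def MA : Matrix (Fin 4) (Fin 4) ℚ := !![-6, 0, 0, 0; 1, 0, 0, 0; 0, 1, -2, 0; 0, 0, 1, -12]

def MB : Matrix (Fin 4) (Fin 4) ℚ := !![-6, -24, 0, 0; 0, 0, -32, 0; 0, 0, -2, -120; 0, 0, 0, -12]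

def PA : Matrix (Fin 4) (Fin 4) ℚ := !![144, 0, 0, 0; -24, 24, 0, 0; 6, 12, 10, 0; 1, 1, 1, 1]

def QA : Matrix (Fin 4) (Fin 4) ℚ :=
  !![1/144, 0, 0, 0; 1/144, 1/24, 0, 0; -1/80, -1/20, 1/10, 0; -1/720, 1/120, -1/10, 1]

def PB : Matrix (Fin 4) (Fin 4) ℚ := !![1, -4, -96, 128; 0, 1, 16, 32; 0, 0, 1, 12; 0, 0, 0, 1]

def QB : Matrix (Fin 4) (Fin 4) ℚ := !![1, 4, 32, -640; 0, 1, -16, 160; 0, 0, 1, -12; 0, 0, 0, 1]

theorem hPA : PA * QA = 1 := by decide +kernel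

theorem hPB : PB * QB = 1 := by decide +kernel

theorem diagA : QA * MA * PA = Matrix.diagonal ![-6, 0, -2, -12] := by decide +kernel

theorem diagB : QB * MB * PB = Matrix.diagonal ![-6, 0, -2, -12] := by decide +kernel

theorem triB : IrrTridiag (QA * MB * PA) := by
  unfold IrrTridiag
  decide +kernel

theorem triA : IrrTridiag (QB * MA * PB) := by
  unfold IrrTridiag
  decide +kernel

theorem pairBeta : LeonardPairBeta 3 (Matrix.toLin' MA) (Matrix.toLin' MB)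
    (2 : ℚ) := by
  refine ⟨colBasis PA QA hPA, colBasis PB QB hPB, ?_, ?_, ?_, ?_, ?_, ?_⟩
  · rw [toMatrix_colBasis, diagA]
    exact Matrix.isDiag_diagonal _
  · rw [toMatrix_colBasis]
    exact triB
  · rw [toMatrix_colBasis, diagB]
    exact Matrix.isDiag_diagonal _
  · rw [toMatrix_colBasis]
    exact triA
  · rw [toMatrix_colBasis, diagA]
    decide +kernel
  · rw [toMatrix_colBasis, diagB]
    decide +kernel

/-- vectors from the rows of a matrix -/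
def rows (F : Matrix (Fin 4) (Fin 4) ℚ) (i : ℕ) : Fin 4 → ℚ := F (Fin.ofNat 4 i)

def seq (v : Fin 4 → ℚ) (i : ℕ) : ℚ := v (Fin.ofNat 4 i)

def F1 : Matrix (Fin 4) (Fin 4) ℚ := 1

def F2 : Matrix (Fin 4) (Fin 4) ℚ :=
  !![1, 0, 0, 0; 6, 1, 0, 0; -24, 8, 1, 0; 144, -24, 6, 1]

def F3 : Matrix (Fin 4) (Fin 4) ℚ :=
  !![128, 32, 12, 1; 0, 320, 80, 6; 0, 0, 160, 8; 0, 0, 0, 80]

def F4 : Matrix (Fin 4) (Fin 4) ℚ :=
  !![128, 32, 12, 1; 768, 512, 152, 12; -3072, 1792, 512, 32; 18432, -3072, 768, 128]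

def up : Fin 4 → ℚ := ![-6, 0, -2, -12]
def dn : Fin 4 → ℚ := ![-12, -2, 0, -6]
def ph1 : Fin 4 → ℚ := ![-24, -32, -120, 0]
def ph2 : Fin 4 → ℚ := ![-60, -16, -60, 0]
def ph4 : Fin 4 → ℚ := ![-120, -32, -24, 0]

theorem bidiag_of (F : Matrix (Fin 4) (Fin 4) ℚ) (a b r : Fin 4 → ℚ)
    (h0 : F 0 ≠ 0) (h3 : F 3 ≠ 0)
    (hA : ∀ i : Fin 3, MA *ᵥ F i.castSucc = a i.castSucc • F i.castSucc + F i.succ)
    (hAl : MA *ᵥ F 3 = a 3 • F 3) (hB0 : MB *ᵥ F 0 = b 0 • F 0)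
    (hB : ∀ i : Fin 3, MB *ᵥ F i.succ = b i.succ • F i.succ + r i.castSucc • F i.castSucc) :
    Bidiag 3 (Matrix.toLin' MA) (Matrix.toLin' MB) (rows F) (seq a) (seq b) (fun _ => 1)
      (seq r) where
  ne0 := h0
  ned := h3
  A_lt i hi := by
    have := hA ⟨i, hi⟩
    rw [Matrix.toLin'_apply, one_smul]
    interval_cases i <;> exact this
  A_last := by
    rw [Matrix.toLin'_apply]
    exact hAl
  B_zero := by
    rw [Matrix.toLin'_apply]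
    exact hB0
  B_succ i hi := by
    have := hB ⟨i, hi⟩
    rw [Matrix.toLin'_apply]
    interval_cases i <;> exact this

theorem g1 : Bidiag 3 (Matrix.toLin' MA) (Matrix.toLin' MB) (rows F1) (seq up) (seq up)
    (fun _ => 1) (seq ph1) :=
  bidiag_of F1 up up ph1 (by decide +kernel) (by decide +kernel) (by decide +kernel)
    (by decide +kernel) (by decide +kernel) (by decide +kernel)

theorem g2 : Bidiag 3 (Matrix.toLin' MA) (Matrix.toLin' MB) (rows F2) (seq dn) (seq up)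
    (fun _ => 1) (seq ph2) :=
  bidiag_of F2 dn up ph2 (by decide +kernel) (by decide +kernel) (by decide +kernel)
    (by decide +kernel) (by decide +kernel) (by decide +kernel)

theorem g3 : Bidiag 3 (Matrix.toLin' MA) (Matrix.toLin' MB) (rows F3) (seq up) (seq dn)
    (fun _ => 1) (seq ph2) :=
  bidiag_of F3 up dn ph2 (by decide +kernel) (by decide +kernel) (by decide +kernel)
    (by decide +kernel) (by decide +kernel) (by decide +kernel)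

theorem g4 : Bidiag 3 (Matrix.toLin' MA) (Matrix.toLin' MB) (rows F4) (seq dn) (seq dn)
    (fun _ => 1) (seq ph4) :=
  bidiag_of F4 dn dn ph4 (by decide +kernel) (by decide +kernel) (by decide +kernel)
    (by decide +kernel) (by decide +kernel) (by decide +kernel)

theorem projCol (P Q : Matrix (Fin 4) (Fin 4) ℚ) (h : P * Q = 1) (i : Fin 4) (t : ℚ)
    (v : Fin 4 → ℚ) (hv : v = t • fun k => P k i) : projB (colBasis P Q h) i v = v := by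
  rw [hv, ← colBasis_apply P Q h i]
  exact projB_smul _ _ _

/-- the final contradiction: a product of two linear forms over `ℚ` cannot have a negative
discriminant -/
theorem final (a₁ a₃ b₂ b₃ t0 t1 t2 : ℚ)
    (h0 : (a₁ + a₃ * 3) * (b₂ + b₃ * 3) = t0) (h1 : (a₁ + a₃ * 1) * (b₂ + b₃ * 1) = t1)
    (h2 : (a₁ + a₃ * (-1)) * (b₂ + b₃ * (-1)) = t2)
    (hD : ((t1 - t2) / 2) ^ 2 - 4 * ((t0 - 2 * t1 + t2) / 8) *
      (t1 - (t1 - t2) / 2 - (t0 - 2 * t1 + t2) / 8) < 0) : False := by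
  have e2 : a₃ * b₃ = (t0 - 2 * t1 + t2) / 8 := by linear_combination (h0 - 2 * h1 + h2) / 8
  have e1 : a₁ * b₃ + a₃ * b₂ = (t1 - t2) / 2 := by linear_combination (h1 - h2) / 2
  have e0 : a₁ * b₂ = t1 - (t1 - t2) / 2 - (t0 - 2 * t1 + t2) / 8 := by
    linear_combination h1 - e1 - e2
  rw [← e0, ← e1, ← e2] at hD
  nlinarith [sq_nonneg (a₁ * b₃ - a₃ * b₂)]

theorem ph1_eq : seq ph1 0 = -24 ∧ seq ph1 1 = -32 ∧ seq ph1 2 = -120 := by decide +kernel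

theorem ph2_eq : seq ph2 0 = -60 ∧ seq ph2 1 = -16 ∧ seq ph2 2 = -60 := by decide +kernel

theorem ph4_eq : seq ph4 0 = -120 ∧ seq ph4 1 = -32 ∧ seq ph4 2 = -24 := by decide +kernel

theorem no_module (x y z : Module.End ℚ (Fin 4 → ℚ)) (hE : EquitableSl2 x y z)
    (hI : Irr3 x y z) : ¬ (Comb x y (Matrix.toLin' MA) ∧ Comb y z (Matrix.toLin' MB)) := by
  rintro ⟨⟨a₀, a₁, a₂, a₃, hA⟩, ⟨b₀, b₁, b₂, b₃, hB⟩⟩
  have h := LeonardSystem.of_bases (colBasis PA QA hPA) (colBasis PB QB hPB) (Matrix.toLin' MA)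
    (Matrix.toLin' MB)
    (by rw [toMatrix_colBasis, diagA]; exact Matrix.isDiag_diagonal _)
    (by rw [toMatrix_colBasis]; exact triB)
    (by rw [toMatrix_colBasis, diagB]; exact Matrix.isDiag_diagonal _)
    (by rw [toMatrix_colBasis]; exact triA)
  obtain ⟨e, a, b, hb⟩ := sl2_bidiag hE hI h a₀ a₁ a₂ a₃ b₀ b₁ b₂ b₃ hA hB
  have key : ∀ p0 p1 p2 : ℚ,
      (a₁ + a₃ * (((3 : ℕ) : ℚ) - 2 * ((0 : ℕ) : ℚ))) * (-4 * (((0 : ℕ) : ℚ) + 1) *
        (((3 : ℕ) : ℚ) - ((0 : ℕ) : ℚ)) * (b₂ + b₃ * (((3 : ℕ) : ℚ) - 2 * ((0 : ℕ) : ℚ)))) = p0 →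
      (a₁ + a₃ * (((3 : ℕ) : ℚ) - 2 * ((1 : ℕ) : ℚ))) * (-4 * (((1 : ℕ) : ℚ) + 1) *
        (((3 : ℕ) : ℚ) - ((1 : ℕ) : ℚ)) * (b₂ + b₃ * (((3 : ℕ) : ℚ) - 2 * ((1 : ℕ) : ℚ)))) = p1 →
      (a₁ + a₃ * (((3 : ℕ) : ℚ) - 2 * ((2 : ℕ) : ℚ))) * (-4 * (((2 : ℕ) : ℚ) + 1) *
        (((3 : ℕ) : ℚ) - ((2 : ℕ) : ℚ)) * (b₂ + b₃ * (((3 : ℕ) : ℚ) - 2 * ((2 : ℕ) : ℚ)))) = p2 →
      (a₁ + a₃ * 3) * (b₂ + b₃ * 3) = -p0 / 12 ∧ (a₁ + a₃ * 1) * (b₂ + b₃ * 1) = -p1 / 16 ∧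
      (a₁ + a₃ * (-1)) * (b₂ + b₃ * (-1)) = -p2 / 12 := by
    intro p0 p1 p2 q0 q1 q2
    push_cast at q0 q1 q2
    refine ⟨?_, ?_, ?_⟩
    · rw [← q0]; ring
    · rw [← q1]; ring
    · rw [← q2]; ring
  rcases h.four hb g1 g2 g3 g4
    (projCol PB QB hPB 0 1 _ (by decide +kernel))
    (projCol PA QA hPA 3 1 _ (by decide +kernel))
    (projCol PB QB hPB 0 1 _ (by decide +kernel))
    (projCol PA QA hPA 0 1 _ (by decide +kernel))
    (projCol PB QB hPB 3 1 _ (by decide +kernel))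
    (projCol PA QA hPA 3 80 _ (by decide +kernel))
    (projCol PB QB hPB 3 1 _ (by decide +kernel))
    (projCol PA QA hPA 0 128 _ (by decide +kernel)) with h1 | h1 | h1 | h1
  · obtain ⟨k0, k1, k2⟩ := key (-24) (-32) (-120) ((h1 0 (by norm_num)).trans (by rw [ph1_eq.1]; norm_num))
      ((h1 1 (by norm_num)).trans (by rw [ph1_eq.2.1]; norm_num))
      ((h1 2 (by norm_num)).trans (by rw [ph1_eq.2.2]; norm_num))
    exact final a₁ a₃ b₂ b₃ _ _ _ k0 k1 k2 (by norm_num)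
  · obtain ⟨k0, k1, k2⟩ := key (-60) (-16) (-60) ((h1 0 (by norm_num)).trans (by rw [ph2_eq.1]; norm_num))
      ((h1 1 (by norm_num)).trans (by rw [ph2_eq.2.1]; norm_num))
      ((h1 2 (by norm_num)).trans (by rw [ph2_eq.2.2]; norm_num))
    exact final a₁ a₃ b₂ b₃ _ _ _ k0 k1 k2 (by norm_num)
  · obtain ⟨k0, k1, k2⟩ := key (-60) (-16) (-60) ((h1 0 (by norm_num)).trans (by rw [ph2_eq.1]; norm_num))
      ((h1 1 (by norm_num)).trans (by rw [ph2_eq.2.1]; norm_num))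
      ((h1 2 (by norm_num)).trans (by rw [ph2_eq.2.2]; norm_num))
    exact final a₁ a₃ b₂ b₃ _ _ _ k0 k1 k2 (by norm_num)
  · obtain ⟨k0, k1, k2⟩ := key (-120) (-32) (-24) ((h1 0 (by norm_num)).trans (by rw [ph4_eq.1]; norm_num))
      ((h1 1 (by norm_num)).trans (by rw [ph4_eq.2.1]; norm_num))
      ((h1 2 (by norm_num)).trans (by rw [ph4_eq.2.2]; norm_num))
    exact final a₁ a₃ b₂ b₃ _ _ _ k0 k1 k2 (by norm_num)

theorem result : ∃ A B : Module.End ℚ (Fin 4 → ℚ), LeonardPairBeta 3 A B 2 ∧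
    ∀ x y z : Module.End ℚ (Fin 4 → ℚ), EquitableSl2 x y z → Irr3 x y z →
      ¬ (Comb x y A ∧ Comb y z B) :=
  ⟨_, _, pairBeta, no_module⟩

end Pool.Agent.Results.MP_d63bef_al.NoSl2Module
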